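import Pool.Agent.H669.FO.Many
import Pool.Graph.R_pool_sql_team_seeded_2aa45f1a.Q325.FR.Orbit

/-!
Arbitrary forms in general position: comparison with powers of linear forms.
-/

set_option autoImplicit false

namespace Pool.Agent.H669.FO

open MvPolynomial Finset Pool.Agent.TH206.Fro Pool.Agent.TH176.FB

lemma hilb_eq_card {K : Type} [Field K] {n r : ℕ} (F : Fin r → MvPolynomial (Fin n) K) (k : ℕ) :
    hilb F k = ((Mon n k).card : ℤ) - Module.finrank K (ik F k) := by
  unfold hilb ik
  rw [dim_thm n k K]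

lemma hilb_nonneg {K : Type} [Field K] {n r : ℕ} (F : Fin r → MvPolynomial (Fin n) K) (k : ℕ) :
    0 ≤ hilb F k := by
  unfold hilb
  rw [sub_nonneg]
  exact_mod_cast Submodule.finrank_mono inf_le_right

/-- The series is a lower bound in the lexicographic order. -/
theorem eq_of_le {K : Type} [Field K] [CharZero K] {n r : ℕ} (hn : 1 ≤ n) (d : Fin r → ℕ)
    (hd : ∀ i, 1 ≤ d i) (F : Fin r → MvPolynomial (Fin n) K) (hF : ∀ i, (F i).IsHomogeneous (d i))
    (D : ℕ) (h : ∀ j ≤ D, hilb F j ≤ fro n d j) : ∀ j ≤ D, hilb F j = fro n d j := by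
  classical
  intro j hj
  have hh : ∀ k, H350MG.qd (H350MG.fList d F) k = hilb F k := by
    intro k
    unfold hilb H350MG.qd
    rw [H350MG.span_inf_eq hF k]
    congr 1
    exact (H350MG.finrank_Rj' k).symm
  have hsnd : (H350MG.fList d F).map Prod.snd = List.ofFn d := by
    unfold H350MG.fList
    rw [List.map_ofFn]
    rfl
  by_cases hp : ∀ j' ≤ j, 0 < co n d j'
  · have hfro : ∀ j' ≤ j, fro n d j' = co n d j' := by
      intro j' hj'
      unfold fro
      rw [if_pos fun i hi => hp i (hi.trans hj')]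
    have hE : ∀ k, H350MG.E (H350MG.gj (Fin n)) ((H350MG.fList d F).map Prod.snd) k =
        co n d k := by
      intro k
      rw [hsnd, H350MG.E_ofFn_series n hn]
      rfl
    have key := H350MG.qd_EQ j (H350MG.fList d F) (by
      intro a ha
      obtain ⟨i, rfl⟩ := H350MG.mem_fList.1 ha
      exact ⟨hF i, hd i⟩) (by
      intro j' hj'
      rw [hh, hE, ← hfro j' hj']
      exact h j' (hj'.trans hj)) j le_rfl
    rw [hh, hE] at key
    rw [key, hfro j le_rfl]
  · have h0 : fro n d j = 0 := by
      unfold fro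
      rw [if_neg hp]
    have h1 := h j hj
    have h2 := hilb_nonneg F j
    omega

/-- The Hilbert function for arbitrary forms in general position is at most the one for powers of
linear forms. -/
theorem cmp_le (K L : Type) [Field K] [CharZero K] [Field L] [CharZero L] {n r : ℕ}
    (d : Fin r → ℕ) (p : Fin r → Fin n → L) (D : ℕ) (f : Fin r → MvPolynomial (Fin n) K)
    (hf : ∀ i, (f i).IsHomogeneous (d i)) (hf0 : ∀ i, f i ≠ 0) :
    Gen f (fun F => ∀ k < D, hilb F k ≤ hilb (fun i => lf (p i) ^ d i) k) := by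
  have h : ∀ k, Gen f (fun F => hilb F k ≤ hilb (fun i => lf (p i) ^ d i) k) := by
    intro k
    refine (Gen.spec K L k d p f hf hf0).mono fun g hg => ?_
    rw [hilb_eq_card, hilb_eq_card]
    have : (Module.finrank L (ik (fun i => lf (p i) ^ d i) k) : ℤ) ≤
      Module.finrank K (ik (fun i => move (g i) (f i)) k) := by exact_mod_cast hg
    omega
  exact Gen.all D h

/-- Fröberg's formula passes from powers of linear forms to arbitrary forms in general position. -/
theorem cmp (K L : Type) [Field K] [CharZero K] [Field L] [CharZero L] {n r : ℕ} (hn : 1 ≤ n)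
    (d : Fin r → ℕ) (hd : ∀ i, 1 ≤ d i) (p : Fin r → Fin n → L) (D : ℕ)
    (hp : ∀ k ≤ D, hilb (fun i => lf (p i) ^ d i) k = fro n d k)
    (f : Fin r → MvPolynomial (Fin n) K)
    (hf : ∀ i, (f i).IsHomogeneous (d i)) (hf0 : ∀ i, f i ≠ 0) :
    Gen f (fun F => ∀ k ≤ D, hilb F k = fro n d k) := by
  refine (cmp_le K L d p (D + 1) f hf hf0).mono fun g hg => ?_
  refine eq_of_le hn d hd _ (fun i => move_hom _ (hf i)) D fun j hj => ?_
  rw [← hp j hj]
  exact hg j (by omega)

end Pool.Agent.H669.FO
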