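import Pool.Agent.H669.FO.Perf

/-!
Arbitrary forms in general position: `t ^ 3` forms in four variables.
-/

set_option autoImplicit false

namespace Pool.Agent.H669.FO

open MvPolynomial Finset Pool.Agent.TH206.Fro Pool.Agent.TH176.FB

/-- The exceptional degrees. -/
def Exc (t δ k : ℕ) : Prop :=
  ∃ m c : ℕ, 1 ≤ m ∧ c + 3 ≤ t ∧ k = t * m + c ∧ k + 1 = δ + m ∧ m < (c + 3).choose 3

lemma not_exc {t δ : ℕ} (h : (t - 1) * t.choose 3 ≤ δ) (k : ℕ) : ¬ Exc t δ k := by
  rintro ⟨m, c, hm, hct, hk, hk2, hmc⟩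
  obtain ⟨u, rfl⟩ : ∃ u, t = u + 1 := ⟨t - 1, by omega⟩
  simp only [Nat.add_sub_cancel] at h
  have h1 : (c + 3).choose 3 ≤ (u + 1).choose 3 := Nat.choose_le_choose 3 hct
  have h2 : m + 1 ≤ (u + 1).choose 3 := by omega
  have h3 : u * (m + 1) ≤ u * (u + 1).choose 3 := Nat.mul_le_mul_left _ h2
  have h4 : δ = u * m + c + 1 := by
    have : (u + 1) * m = u * m + m := by ring
    omega
  have h5 : u * (m + 1) = u * m + u := by ring
  omega

/-- The case of a single degree smaller than `2 δ`. -/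
theorem eachO (K : Type) [Field K] [CharZero K] (t δ k : ℕ) (ht : 2 ≤ t) (hδ : 1 ≤ δ)
    (hk : k < 2 * δ) (hexc : ¬ Exc t δ k) (f : Fin (t ^ 3) → MvPolynomial (Fin 4) K)
    (hf : ∀ i, (f i).IsHomogeneous δ) (hf0 : ∀ i, f i ≠ 0) :
    Gen f (fun F => hilb F k = fro 4 (fun _ : Fin (t ^ 3) => δ) k) := by
  classical
  have hmv : ∀ (g : Fin (t ^ 3) → Matrix (Fin 4) (Fin 4) K) (i : Fin (t ^ 3)),
      (move (g i) (f i)).IsHomogeneous δ := fun g i => move_hom _ (hf i)
  have hmin : ∀ F : Fin (t ^ 3) → MvPolynomial (Fin 4) K,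
      (∀ i, (F i).IsHomogeneous δ) →
      min (Fintype.card (Ro 4 k fun _ : Fin (t ^ 3) => δ)) (Mon 4 k).card ≤
        Module.finrank K (ik F k) → hilb F k = fro 4 (fun _ : Fin (t ^ 3) => δ) k :=
    fun F hF h => hilb_eq K 4 _ k _ (by omega) (fun _ => hk) F hF h
  rcases lt_or_ge k δ with hkδ | hkδ
  · refine (Gen.of (T := fun _ => True) fun F => trivial).mono fun g _ => hmin _ (hmv g) ?_
    refine (min_le_left _ _).trans ?_
    rw [card_Ro, Finset.sum_eq_zero]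
    · exact Nat.zero_le _
    · intro i _
      rw [if_neg (by omega)]
  by_cases hA : (t - 1) * (2 * k + 3 + 1) ≤ 2 * t * δ
  · obtain ⟨p, hc⟩ := lemAO 3 (t ^ 3) δ k t (fun _ => δ) (by omega) ht hδ
      (fun _ => le_rfl) le_rfl hA
    exact (Gen.spec K ℂ k (fun _ => δ) p f hf hf0).mono fun g hg =>
      hmin _ (hmv g) ((min_le_left _ _).trans (hc.trans hg))
  by_cases hB : t * (δ - 1) < (t - 1) * k
  · obtain ⟨p, hc⟩ := lemBO K 3 (t ^ 3) k t δ (fun _ => δ) ht (by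
      rw [Finset.filter_true_of_mem fun i _ => le_rfl, Finset.card_univ, Fintype.card_fin]) hB
    exact (Gen.spec K K k (fun _ => δ) p f hf hf0).mono fun g hg =>
      hmin _ (hmv g) ((min_le_right _ _).trans (hc.trans hg))
  -- the window
  obtain ⟨m, hm⟩ : ∃ m, k + 1 = δ + m := ⟨k + 1 - δ, by omega⟩
  obtain ⟨u, rfl⟩ : ∃ u, t = u + 1 := ⟨t - 1, by omega⟩
  simp only [Nat.add_sub_cancel] at hA hB
  push Not at hA hB
  have hm1 : 1 ≤ m := by omega
  obtain ⟨v, hv⟩ : ∃ v, δ = v + 1 := ⟨δ - 1, by omega⟩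
  have hkv : k = v + m := by omega
  have hB' : u * m ≤ v := by
    rw [hv, Nat.add_sub_cancel, hkv] at hB
    nlinarith
  obtain ⟨c, hc⟩ : ∃ c, v = u * m + c := ⟨v - u * m, by omega⟩
  have hkc : k = (u + 1) * m + c := by rw [hkv, hc]; ring
  have hδc : δ = u * m + c + 1 := by rw [hv, hc]
  have hcn : 2 * c + 2 + 2 < 2 * (u + 1) := by
    rw [hkc, hδc] at hA
    nlinarith
  have hct : c + 3 ≤ u + 1 := by omega
  have h0 : c / (u + 1) = 0 := Nat.div_eq_of_lt (by omega)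
  have hM : (c + 3).choose 3 ≤ m := by
    by_contra hcon
    exact hexc ⟨m, c, hm1, hct, hkc, hm, by omega⟩
  -- no forms
  obtain ⟨P, hP, hP2⟩ := tmodel2 2 (u + 1) m c 1 1 ((u + 1) ^ (2 + 1)) (by omega) le_rfl (by
      calc 2 ≤ u + 1 := by omega
        _ ≤ (u + 1) ^ (2 + 1) := Nat.le_self_pow (by omega) (u + 1)) le_rfl (by omega)
    (fun i hi => by
      obtain ⟨i, rfl⟩ : ∃ j, i = j + 1 := ⟨i - 1, by omega⟩
      have h1 := Hc_two_R1 (u + 1) c hct
      have h2 := Hc_add_mul 2 (u + 1) (u + 1 + c) i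
      have h3 : (u + 1) * (i + 1) + c = u + 1 + c + (u + 1) * i := by ring
      rw [h3]
      have h4 : (u + 1) ^ (2 + 1) * (i + 1) = (u + 1) ^ 3 + (u + 1) ^ (2 + 1) * i := by ring
      rw [h4]
      omega)
    (fun b hb hb2 => by
      have h1 : b = m := by
        have h2 : m ≤ b := by omega
        by_contra h3
        have h4 : m + 1 ≤ b := by omega
        have h5 : (u + 1) * (m + 1) ≤ (u + 1) * b := Nat.mul_le_mul_left _ h4
        rw [Nat.mul_succ] at h5
        omega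
      subst h1
      have h2 : (u + 1) * b + c - (u + 1) * b = c := by omega
      rw [h2, Nat.sub_self]
      have h3 := (Hc_two_le (u + 1) c).trans hM
      have h4 : ((Hc 2 (u + 1) c : ℕ) : ℤ) ≤ (b : ℤ) := by exact_mod_cast h3
      push_cast
      linarith)
  obtain ⟨p, hp, hp2⟩ := limit (u + 1) ((u + 1) * m + c) (m - 1) (by omega) P
    (fun G hG h => hP2 G hG fun i a ha => h i a (by omega))
  have hpinj : Function.Injective p := fun i j hij => hP (by
    have h1 := congrFun hij 0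
    rw [hp, hp] at h1
    exact h1)
  obtain ⟨q, hcard⟩ := top_of_vanishO (2 + 1) ((u + 1) ^ 3) k δ _ (fun _ => δ) hkδ p
    hpinj (by
      rw [Finset.filter_true_of_mem fun i _ => le_rfl, Finset.card_univ, Fintype.card_fin])
    (fun F hF h => hp2 F (by rw [← hkc]; exact hF) fun i a ha => h i a (by omega))
  exact (Gen.spec K ℝ k (fun _ => δ) q f hf hf0).mono fun g hg =>
    hmin _ (hmv g) ((min_le_right _ _).trans (hcard.trans hg))

/-- `t ^ 3` arbitrary forms of degree `δ` in four variables in general position. -/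
theorem fourO (K : Type) [Field K] [CharZero K] (t δ : ℕ) (ht : 2 ≤ t) (hδ : 1 ≤ δ)
    (f : Fin (t ^ 3) → MvPolynomial (Fin 4) K)
    (hf : ∀ i, (f i).IsHomogeneous δ) (hf0 : ∀ i, f i ≠ 0) :
    Gen f (fun F => ∀ k : ℕ, ¬ Exc t δ k → hilb F k = fro 4 (fun _ : Fin (t ^ 3) => δ) k) := by
  classical
  have hB : t * (δ - 1) < (t - 1) * (2 * δ - 1) := by
    obtain ⟨u, rfl⟩ : ∃ u, t = u + 1 := ⟨t - 1, by omega⟩
    obtain ⟨v, rfl⟩ : ∃ v, δ = v + 1 := ⟨δ - 1, by omega⟩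
    have h4 : 2 * (v + 1) - 1 = 2 * v + 1 := by omega
    rw [h4]
    simp only [Nat.add_sub_cancel]
    have h5 : v ≤ u * v := Nat.le_mul_of_pos_left _ (by omega)
    nlinarith
  obtain ⟨p, hc⟩ := lemBO K 3 (t ^ 3) (2 * δ - 1) t δ (fun _ => δ) ht (by
    rw [Finset.filter_true_of_mem fun i _ => le_rfl, Finset.card_univ, Fintype.card_fin]) hB
  have h1 := Gen.spec K K (2 * δ - 1) (fun _ => δ) p f hf hf0
  have h2 : Gen f (fun F => ∀ k < 2 * δ, ¬ Exc t δ k →
      hilb F k = fro 4 (fun _ : Fin (t ^ 3) => δ) k) := by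
    let T : ℕ → (Fin (t ^ 3) → MvPolynomial (Fin 4) K) → Prop := fun k F =>
      k < 2 * δ → ¬ Exc t δ k → hilb F k = fro 4 (fun _ : Fin (t ^ 3) => δ) k
    have h3 : ∀ k, Gen f (T k) := by
      intro k
      by_cases h : k < 2 * δ ∧ ¬ Exc t δ k
      · exact (eachO K t δ k ht hδ h.1 h.2 f hf hf0).mono fun g hg _ _ => hg
      · exact Gen.of fun F h1 h2 => absurd ⟨h1, h2⟩ h
    exact (Gen.all (2 * δ) h3).mono fun g hg k hk hk2 => hg k hk hk hk2
  refine (h1.and h2).mono fun g hg k hk => ?_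
  have hmv : ∀ i : Fin (t ^ 3), (move (g i) (f i)).IsHomogeneous δ := fun i => move_hom _ (hf i)
  rcases lt_or_ge k (2 * δ) with hk2 | hk2
  · exact hg.2 k hk2 hk
  · have htop := ik_top_of_card _ (2 * δ - 1) (hc.trans hg.1)
    rw [hilb_zero_of_top _ k (ik_top_mono _ _ k (by omega) htop),
      fro_zero K 4 _ δ _ (by omega) (fun _ => le_rfl) _ hmv (2 * δ - 1) (by omega) htop k
        (by omega)]

end Pool.Agent.H669.FO
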