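import Pool.Agent.H669.FO.Many

/-!
Arbitrary forms in general position: perfect powers.
-/

set_option autoImplicit false

namespace Pool.Agent.H669.FO

open MvPolynomial Finset Pool.Agent.TH206.Fro Pool.Agent.TH176.FB

/-- Independence for at most `t ^ N` forms. -/
theorem lemAO (N r δ k t : ℕ) (d : Fin r → ℕ) (hN : 1 ≤ N) (ht : 2 ≤ t) (hδ : 1 ≤ δ)
    (hd : ∀ i, δ ≤ d i) (hr : r ≤ t ^ N) (hk : (t - 1) * (2 * k + N + 1) ≤ 2 * t * δ) :
    ∃ p : Fin r → Fin (N + 1) → ℂ,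
      Fintype.card (Ro (N + 1) k d) ≤ Module.finrank ℂ (ik (fun i => lf (p i) ^ d i) k) := by
  obtain ⟨p, hp⟩ := fatA N r δ k t d hN ht hδ hd hr hk
  refine ⟨p, ?_⟩
  have h1 := emsalem_iarrobino k d p
  rw [dim_thm (N + 1) k ℂ, card_Mon_choose] at h1
  rw [card_Ro_choose N r k d hN]
  omega

/-- Surjectivity for at least `s ^ N` forms. -/
theorem lemBO (K : Type) [Field K] [CharZero K] (N r k s Δ : ℕ) (d : Fin r → ℕ) (hs : 2 ≤ s)
    (hc : s ^ N ≤ (Finset.univ.filter fun i => d i ≤ Δ).card) (hk : s * (Δ - 1) < (s - 1) * k) :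
    ∃ p : Fin r → Fin (N + 1) → K,
      (Mon (N + 1) k).card ≤ Module.finrank K (ik (fun i => lf (p i) ^ d i) k) := by
  classical
  obtain ⟨Z, hZ, hV⟩ := exists_vanish (K := K) N s (by omega)
  obtain ⟨u, rfl⟩ : ∃ u, s = u + 1 := ⟨s - 1, by omega⟩
  simp only [Nat.add_sub_cancel] at hk
  have hΔk : Δ ≤ k := by
    by_contra h
    push Not at h
    have h1 : k ≤ Δ - 1 := by omega
    have h2 : u * k ≤ (u + 1) * (Δ - 1) := Nat.mul_le_mul (by omega) h1
    omega
  obtain ⟨e, rfl⟩ : ∃ e, k = Δ + e := ⟨k - Δ, by omega⟩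
  have hlt : Δ + e < (u + 1) * (e + 1) := by
    rcases Nat.eq_zero_or_pos Δ with h0 | h0
    · subst h0
      nlinarith
    · obtain ⟨v, rfl⟩ : ∃ v, Δ = v + 1 := ⟨Δ - 1, by omega⟩
      simp only [Nat.add_sub_cancel] at hk
      nlinarith
  have hspan := span_of_vanish Z e (Δ + e) (by omega) (hV e (Δ + e) hlt)
  obtain ⟨j⟩ : Nonempty (Z ↪ {i // i ∈ Finset.univ.filter fun i => d i ≤ Δ}) :=
    Function.Embedding.nonempty_of_card_le (by
      rw [Fintype.card_coe, Fintype.card_coe, hZ]; exact hc)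
  let p : Fin r → (Fin N → K) := fun i => if h : ∃ q : Z, (j q).1 = i then (h.choose : Z) else 0
  have hp : ∀ q : Z, p (j q).1 = q := by
    intro q
    have h : ∃ q' : Z, (j q').1 = (j q).1 := ⟨q, rfl⟩
    have h1 : p (j q).1 = (h.choose : Z) := dif_pos h
    rw [h1]
    have h2 := h.choose_spec
    have h3 := j.injective (Subtype.ext h2)
    rw [h3]
  refine ⟨fun i => Fin.cons 1 (p i), ?_⟩
  have hfe : (fun i => lf (Fin.cons 1 (p i) : Fin (N + 1) → K) ^ d i) =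
      fun i => lin (p i) ^ d i := funext fun i => by rw [lin_eq]
  show (Mon (N + 1) (Δ + e)).card ≤ Module.finrank K
    (ik (fun i => lf (Fin.cons 1 (p i) : Fin (N + 1) → K) ^ d i) (Δ + e))
  rw [hfe]
  have hle : homogeneousSubmodule (Fin (N + 1)) K (Δ + e) ≤
      ik (fun i => lin (p i) ^ d i) (Δ + e) := by
    rw [← hspan, Submodule.span_le]
    rintro _ ⟨⟨q, α⟩, rfl⟩
    have h1 := T_mem (Δ + e) d p (j q).1 α.1 (by
      have h2 := α.2
      have h3 : d (j q).1 ≤ Δ := (Finset.mem_filter.1 (j q).2).2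
      omega)
    rw [hp q] at h1
    exact h1
  have : FiniteDimensional K (ik (fun i => lin (p i) ^ d i) (Δ + e)) :=
    Submodule.finiteDimensional_of_le (inf_le_right : _ ≤ homogeneousSubmodule _ K (Δ + e))
  rw [← dim_thm (N + 1) (Δ + e) K]
  exact Submodule.finrank_mono hle

/-- The statement `main2` of the library for arbitrary forms in general position. -/
theorem perfO (K : Type) [Field K] [CharZero K] (N r δ : ℕ) (d : Fin r → ℕ) (hN : 1 ≤ N)
    (hδ : 1 ≤ δ) (hd : ∀ i, δ ≤ d i) (f : Fin r → MvPolynomial (Fin (N + 1)) K)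
    (hf : ∀ i, (f i).IsHomogeneous (d i)) (hf0 : ∀ i, f i ≠ 0) :
    Gen f (fun F =>
        (∀ t k : ℕ, 2 ≤ t → r ≤ t ^ N → (t - 1) * (2 * k + N + 1) ≤ 2 * t * δ →
          hilb F k = fro (N + 1) d k) ∧
        (∀ s Δ k : ℕ, 2 ≤ s → s ^ N ≤ (Finset.univ.filter fun i => d i ≤ Δ).card →
          s * (Δ - 1) < (s - 1) * k → hilb F k = 0 ∧
            (s * (Δ - 1) < (s - 1) * (2 * δ - 1) → fro (N + 1) d k = 0))) := by
  classical
  -- the bound for the degrees
  obtain ⟨B, hB⟩ : ∃ B : ℕ, 2 * δ ≤ B ∧ ∀ i, 2 * d i ≤ B :=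
    ⟨2 * δ + ∑ i, 2 * d i, by omega, fun i => by
      have := Finset.single_le_sum (f := fun i => 2 * d i) (fun _ _ => Nat.zero_le _)
        (Finset.mem_univ i)
      omega⟩
  have hA : ∀ k : ℕ, Gen f (fun F =>
        ∀ t : ℕ, 2 ≤ t → r ≤ t ^ N → (t - 1) * (2 * k + N + 1) ≤ 2 * t * δ →
          Fintype.card (Ro (N + 1) k d) ≤ Module.finrank K (ik F k)) := by
    intro k
    by_cases h : ∃ t : ℕ, 2 ≤ t ∧ r ≤ t ^ N ∧ (t - 1) * (2 * k + N + 1) ≤ 2 * t * δ
    · obtain ⟨t, ht, hr, hk⟩ := h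
      obtain ⟨p, hc⟩ := lemAO N r δ k t d hN ht hδ hd hr hk
      exact (Gen.spec K ℂ k d p f hf hf0).mono fun g hg _ _ _ _ => hc.trans hg
    · exact Gen.of fun F t ht hr hk => absurd ⟨t, ht, hr, hk⟩ h
  have hB' : ∀ k : ℕ, Gen f (fun F =>
        ∀ s Δ : ℕ, 2 ≤ s → s ^ N ≤ (Finset.univ.filter fun i => d i ≤ Δ).card →
          s * (Δ - 1) < (s - 1) * k → (Mon (N + 1) k).card ≤ Module.finrank K (ik F k)) := by
    intro k
    by_cases h : ∃ s Δ : ℕ, 2 ≤ s ∧ s ^ N ≤ (Finset.univ.filter fun i => d i ≤ Δ).card ∧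
        s * (Δ - 1) < (s - 1) * k
    · obtain ⟨s, Δ, hs, hc, hk⟩ := h
      obtain ⟨p, hc⟩ := lemBO K N r k s Δ d hs hc hk
      exact (Gen.spec K K k d p f hf hf0).mono fun g hg _ _ _ _ _ => hc.trans hg
    · exact Gen.of fun F s Δ hs hc hk => absurd ⟨s, Δ, hs, hc, hk⟩ h
  refine ((Gen.all (B + 1) hA).and (Gen.all (B + 1) hB')).mono fun g hfD => ?_
  obtain ⟨hPA, hPB⟩ := hfD
  have hf : ∀ i, (move (g i) (f i)).IsHomogeneous (d i) := fun i => move_hom _ (hf i)
  obtain ⟨F, hFF⟩ : ∃ F : Fin r → MvPolynomial (Fin (N + 1)) K,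
    F = fun i => move (g i) (f i) := ⟨_, rfl⟩
  rw [← hFF] at hPA hPB
  have hf : ∀ i, (F i).IsHomogeneous (d i) := by rw [hFF]; exact hf
  show (∀ t k : ℕ, 2 ≤ t → r ≤ t ^ N → (t - 1) * (2 * k + N + 1) ≤ 2 * t * δ →
          hilb (fun i => move (g i) (f i)) k = fro (N + 1) d k) ∧ _
  rw [← hFF]
  refine ⟨fun t k ht hr hk => ?_, fun s Δ k hs hc hk => ?_⟩
  · have hk2 : k < 2 * δ := by
      obtain ⟨u, rfl⟩ : ∃ u, t = u + 1 := ⟨t - 1, by omega⟩
      simp only [Nat.add_sub_cancel] at hk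
      by_contra hne
      push Not at hne
      have h1 : u * (4 * δ + 1) ≤ u * (2 * k + N + 1) := Nat.mul_le_mul_left _ (by omega)
      have h2 : δ ≤ u * δ := Nat.le_mul_of_pos_left _ (by omega)
      nlinarith
    refine hilb_eq K (N + 1) r k d (by omega) (fun i => by have := hd i; omega) F hf ?_
    exact (min_le_left _ _).trans (hPA k (by omega) t ht hr hk)
  · -- a degree at most `B` in which the quotient is zero
    have hkey : ∀ k' ≤ B, s * (Δ - 1) < (s - 1) * k' →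
        homogeneousSubmodule (Fin (N + 1)) K k' ≤ ik F k' := fun k' hk' h =>
      ik_top_of_card F k' (hPB k' (by omega) s Δ hs hc h)
    obtain ⟨u, rfl⟩ : ∃ u, s = u + 1 := ⟨s - 1, by omega⟩
    simp only [Nat.add_sub_cancel] at hk hkey ⊢
    -- replace `Δ` by the largest degree at most `Δ`
    have h1 : (Finset.univ.filter fun i => d i ≤ Δ).Nonempty :=
      Finset.card_pos.1 (lt_of_lt_of_le (pow_pos (by omega) _) hc)
    obtain ⟨i0, hi0, hmax⟩ := Finset.exists_max_image _ d h1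
    have hi0' : d i0 ≤ Δ := (Finset.mem_filter.1 hi0).2
    have hc' : (u + 1) ^ N ≤ (Finset.univ.filter fun i => d i ≤ d i0).card := by
      refine hc.trans (Finset.card_le_card fun i hi => ?_)
      exact Finset.mem_filter.2 ⟨Finset.mem_univ _, hmax i hi⟩
    have hk1 : (u + 1) * (d i0 - 1) < u * (2 * d i0 - 1) := by
      have h2 := hd i0
      obtain ⟨v, hv⟩ : ∃ v, d i0 = v + 1 := ⟨d i0 - 1, by omega⟩
      rw [hv]
      have h3 : v + 1 - 1 = v := rfl
      have h4 : 2 * (v + 1) - 1 = 2 * v + 1 := by omega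
      rw [h3, h4]
      have h5 : v ≤ u * v := Nat.le_mul_of_pos_left _ (by omega)
      nlinarith
    have htop : homogeneousSubmodule (Fin (N + 1)) K k ≤ ik F k := by
      have hB2 := hB.2 i0
      rcases le_or_gt k B with hkB | hkB
      · exact hkey k hkB hk
      · have h3 := ik_top_of_card F (2 * d i0 - 1) (hPB (2 * d i0 - 1)
          (by omega) (u + 1) (d i0) (by omega) hc' (by simpa using hk1))
        exact ik_top_mono F _ k (by omega) h3
    refine ⟨hilb_zero_of_top F k htop, fun hfro => ?_⟩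
    -- the predicted value
    have h5 : ∀ k' < 2 * δ, homogeneousSubmodule (Fin (N + 1)) K k' ≤ ik F k' →
        co (N + 1) d k' ≤ 0 := by
      intro k' hk' h6
      rw [co_thm (N + 1) r k' d (by omega) (fun i => by have := hd i; omega) k' le_rfl]
      have h7 := finrank_ik_le K (N + 1) r k' d F hf
      have h8 : ik F k' = homogeneousSubmodule (Fin (N + 1)) K k' := le_antisymm inf_le_right h6
      rw [h8, dim_thm (N + 1) k' K, le_min_iff] at h7
      have h9 := h7.1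
      rw [card_Ro] at h9
      have h10 : (((Mon (N + 1) k').card : ℕ) : ℤ) ≤
          ((∑ i, (if d i ≤ k' then (Mon (N + 1) (k' - d i)).card else 0) : ℕ) : ℤ) := by
        exact_mod_cast h9
      push_cast at h10
      linarith
    have h6 : ∃ k' ≤ k, co (N + 1) d k' ≤ 0 := by
      rcases lt_or_ge k (2 * δ) with h7 | h7
      · exact ⟨k, le_rfl, h5 k h7 htop⟩
      · exact ⟨2 * δ - 1, by omega, h5 _ (by omega) (hkey _ (by omega) hfro)⟩
    unfold fro
    rw [if_neg]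
    push Not
    exact h6

/-- The exceptional degrees for `s ^ N` forms of equal degree. -/
theorem perfO_window (K : Type) [Field K] [CharZero K] (N s δ : ℕ) (hN : 1 ≤ N) (hs : 2 ≤ s)
    (hδ : 1 ≤ δ) : ∃ a : ℕ, ∀ f : Fin (s ^ N) → MvPolynomial (Fin (N + 1)) K,
    (∀ i, (f i).IsHomogeneous δ) → (∀ i, f i ≠ 0) →
    Gen f (fun F => ∀ k : ℕ, hilb F k ≠ fro (N + 1) (fun _ : Fin (s ^ N) => δ) k →
      a ≤ k ∧ k < a + N / 2 ∧ ((s - 1) ∣ δ → k + 1 < a + N / 2)) := by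
  classical
  obtain ⟨a, ha⟩ : ∃ a : ℕ, ∀ k : ℕ, ¬ ((s - 1) * (2 * k + N + 1) ≤ 2 * s * δ) →
      ¬ (s * (δ - 1) < (s - 1) * k) →
      a ≤ k ∧ k < a + N / 2 ∧ ((s - 1) ∣ δ → k + 1 < a + N / 2) := by
    by_cases hdvd : (s - 1) ∣ δ
    · obtain ⟨a, ha⟩ := window' N s δ hs hdvd
      refine ⟨a, fun k h1 h2 => ?_⟩
      have := ha k h1 h2 hδ
      exact ⟨this.1, by omega, fun _ => this.2⟩
    · obtain ⟨a, ha⟩ := window N s δ hs
      refine ⟨a, fun k h1 h2 => ?_⟩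
      have := ha k h1 h2 hδ
      exact ⟨this.1, this.2, fun h => absurd h hdvd⟩
  refine ⟨a, fun f hf hf0 => (perfO K N (s ^ N) δ (fun _ => δ) hN hδ (fun _ => le_rfl) f hf
    hf0).mono fun g hg k hk => ha k (fun h1 => hk (hg.1 s k hs le_rfl h1)) fun h1 => hk ?_⟩
  have h2 : s ^ N ≤ (Finset.univ.filter fun _ : Fin (s ^ N) => δ ≤ δ).card := by
    rw [Finset.filter_true_of_mem fun i _ => le_rfl, Finset.card_univ, Fintype.card_fin]
  have h3 : s * (δ - 1) < (s - 1) * (2 * δ - 1) := by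
    obtain ⟨u, rfl⟩ : ∃ u, s = u + 1 := ⟨s - 1, by omega⟩
    obtain ⟨v, rfl⟩ : ∃ v, δ = v + 1 := ⟨δ - 1, by omega⟩
    have h4 : 2 * (v + 1) - 1 = 2 * v + 1 := by omega
    rw [h4]
    simp only [Nat.add_sub_cancel]
    have h5 : v ≤ u * v := Nat.le_mul_of_pos_left _ (by omega)
    nlinarith
  obtain ⟨h5, h6⟩ := hg.2 s δ k hs h2 h1
  rw [h5, h6 h3]

/-- Surjectivity from a set of points without forms vanishing at it. -/
theorem top_of_vanishO (N r k Δ c : ℕ) (d : Fin r → ℕ) (hΔ : Δ ≤ k) (p : Fin c → Fin N → ℝ)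
    (hp : Function.Injective p) (hc : c ≤ (Finset.univ.filter fun i => d i ≤ Δ).card)
    (hV : ∀ F : MvPolynomial (Fin N) ℝ, F.totalDegree ≤ k →
      (∀ i, ∀ a : Fin N →₀ ℕ, a.degree ≤ k - Δ → coeff a (shift (p i) F) = 0) → F = 0) :
    ∃ q : Fin r → Fin (N + 1) → ℝ,
      (Mon (N + 1) k).card ≤ Module.finrank ℝ (ik (fun i => lf (q i) ^ d i) k) := by
  classical
  obtain ⟨e, rfl⟩ : ∃ e, k = Δ + e := ⟨k - Δ, by omega⟩
  rw [Nat.add_sub_cancel_left] at hV
  let Z : Finset (Fin N → ℝ) := Finset.univ.image p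
  have hspan := span_of_vanish Z e (Δ + e) (by omega) (fun F hF h => hV F hF fun i a ha =>
    h (p i) (Finset.mem_image_of_mem _ (Finset.mem_univ i)) a ha)
  obtain ⟨j⟩ : Nonempty (Fin c ↪ {i // i ∈ Finset.univ.filter fun i => d i ≤ Δ}) :=
    Function.Embedding.nonempty_of_card_le (by
      rw [Fintype.card_coe, Fintype.card_fin]; exact hc)
  let p' : Fin r → (Fin N → ℝ) := fun i => if h : ∃ q : Fin c, (j q).1 = i then p h.choose else 0
  have hp' : ∀ q : Fin c, p' (j q).1 = p q := by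
    intro q
    have h : ∃ q' : Fin c, (j q').1 = (j q).1 := ⟨q, rfl⟩
    have h1 : p' (j q).1 = p h.choose := dif_pos h
    rw [h1]
    have h2 := h.choose_spec
    have h3 := j.injective (Subtype.ext h2)
    rw [h3]
  refine ⟨fun i => Fin.cons 1 (p' i), ?_⟩
  have hfe : (fun i => lf (Fin.cons 1 (p' i) : Fin (N + 1) → ℝ) ^ d i) =
      fun i => lin (p' i) ^ d i := funext fun i => by rw [lin_eq]
  show (Mon (N + 1) (Δ + e)).card ≤ Module.finrank ℝ
    (ik (fun i => lf (Fin.cons 1 (p' i) : Fin (N + 1) → ℝ) ^ d i) (Δ + e))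
  rw [hfe]
  have hle : homogeneousSubmodule (Fin (N + 1)) ℝ (Δ + e) ≤
      ik (fun i => lin (p' i) ^ d i) (Δ + e) := by
    rw [← hspan, Submodule.span_le]
    rintro _ ⟨⟨⟨z, hz⟩, α⟩, rfl⟩
    obtain ⟨q, _, rfl⟩ := Finset.mem_image.1 hz
    have h1 := T_mem (Δ + e) d p' (j q).1 α.1 (by
      have h2 := α.2
      have h3 : d (j q).1 ≤ Δ := (Finset.mem_filter.1 (j q).2).2
      omega)
    rw [hp' q] at h1
    exact h1
  have : FiniteDimensional ℝ (ik (fun i => lin (p' i) ^ d i) (Δ + e)) :=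
    Submodule.finiteDimensional_of_le (inf_le_right : _ ≤ homogeneousSubmodule _ ℝ (Δ + e))
  rw [← dim_thm (N + 1) (Δ + e) ℝ]
  exact Submodule.finrank_mono hle

end Pool.Agent.H669.FO
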