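import Pool.Agent.H669.FO.Many
import Pool.Graph.R_pool_sql_team_seeded_c8625f6e.K4H42.FRE

/-!
Arbitrary forms in general position: the degree in which the quotient vanishes.
-/

set_option autoImplicit false

namespace Pool.Agent.H669.FO

open MvPolynomial Finset Pool.Agent.TH206.Fro Pool.Agent.TH176.FB
open Pool.Agent.TH603.EL Pool.Agent.TH3.IR Pool.Agent.K4H42 Pool.Agent.K4H42.FR

/-- One degree. -/
theorem chainO {n r : ℕ} (hn : 1 ≤ n) (K : Type) [Field K] [CharZero K] (d : Fin r → ℕ)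
    {M k : ℕ} (hM : 1 ≤ M) (hMr : M ≤ r) (hch : chainFrom ((r : ℝ) / M) 1 n ≤ M)
    (he : M * k < ∑ i, (k + 1 - d i)) (f : Fin r → MvPolynomial (Fin (n + 2)) K)
    (hf : ∀ i, (f i).IsHomogeneous (d i)) (hf0 : ∀ i, f i ≠ 0) :
    Gen f (fun F => (Mon (n + 2) k).card ≤ Module.finrank K (ik F k)) := by
  have : Nonempty (Fin n) := ⟨⟨0, by omega⟩⟩
  have hE := empS_chain (ι := Fin r) (σ := Fin n) (w := fun i => k + 1 - d i) (d := k) hM
    (by simpa using hMr) (by rw [Fintype.card_fin, Fintype.card_fin]; exact hch)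
    (by exact_mod_cast he)
  obtain ⟨p, hp, hbot⟩ := fat_bot hE
  have h1 := emsalem_iarrobino k d p
  have h2 : Module.finrank ℂ (fat k (fun i => k + 1 - d i) p) + (Mon (n + 2) k).card ≤
      (Mon (n + 2) k).card := finrank_fat (n := n + 1) le_rfl hp hbot
  rw [dim_thm (n + 2) k ℂ] at h1
  exact (Gen.spec K ℂ k d p f hf hf0).mono fun g hg => le_trans (by omega) hg

/-- All degrees. -/
theorem vanO {n r : ℕ} (hn : 1 ≤ n) (K : Type) [Field K] [CharZero K] (d : Fin r → ℕ)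
    {t : ℝ} (ht : 1 < t) (ht2 : t ≤ 2) (hr : 2 * t ^ (n + 2) ≤ (t - 1) * r)
    (f : Fin r → MvPolynomial (Fin (n + 2)) K)
    (hf : ∀ i, (f i).IsHomogeneous (d i)) (hf0 : ∀ i, f i ≠ 0) :
    Gen f (fun F => ∀ k : ℕ, (r : ℝ) * k < t * ∑ i, ((k + 1 - d i : ℕ) : ℝ) →
      hilb F k = 0) := by
  classical
  obtain ⟨M, hM1, hMr, hch, hMt⟩ := exists_M (n := n) ht ht2 hr
  have ht0 : 0 < t := by linarith
  have hM : ∀ k : ℕ, (r : ℝ) * k < t * ∑ i, ((k + 1 - d i : ℕ) : ℝ) →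
      M * k < ∑ i, (k + 1 - d i) := by
    intro k hk
    have h3 : (M : ℝ) * k < ∑ i, ((k + 1 - d i : ℕ) : ℝ) := by
      refine lt_of_mul_lt_mul_left ?_ ht0.le
      calc t * ((M : ℝ) * k) = (M * t) * k := by ring
        _ ≤ r * k := mul_le_mul_of_nonneg_right hMt (Nat.cast_nonneg _)
        _ < _ := hk
    exact_mod_cast h3
  obtain ⟨S, hS⟩ : ∃ S : ℕ, S = ∑ i, d i := ⟨_, rfl⟩
  have hA : ∀ k : ℕ, Gen f (fun F => M * k < ∑ i, (k + 1 - d i) →
      (Mon (n + 2) k).card ≤ Module.finrank K (ik F k)) := by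
    intro k
    by_cases h : M * k < ∑ i, (k + 1 - d i)
    · exact (chainO hn K d hM1 hMr.le hch h f hf hf0).mono fun g hg _ => hg
    · exact Gen.of fun F h' => absurd h' h
  refine (Gen.all (S + 1) hA).mono fun g hg k hk => ?_
  refine hilb_zero_of_top _ k ?_
  rcases le_or_gt k S with hkS | hkS
  · exact ik_top_of_card _ k (hg k (by omega) (hM k hk))
  · have hsum : r * (S + 1) ≤ ∑ i, (S + 1 - d i) + S := by
      have h6 : ∑ _i : Fin r, (S + 1) ≤ ∑ i, ((S + 1 - d i) + d i) :=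
        Finset.sum_le_sum fun i _ => by omega
      rw [Finset.sum_const, Finset.card_univ, Fintype.card_fin, smul_eq_mul,
        Finset.sum_add_distrib, ← hS] at h6
      exact h6
    have hz : M * S < ∑ i, (S + 1 - d i) := by
      obtain ⟨q, rfl⟩ : ∃ q, r = M + 1 + q := ⟨r - (M + 1), by omega⟩
      nlinarith
    exact ik_top_mono _ S k hkS.le (ik_top_of_card _ S (hg S (by omega) hz))

/-- Equal degrees. -/
theorem vanO_eq {n r δ : ℕ} (hn : 1 ≤ n) (K : Type) [Field K] [CharZero K]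
    {t : ℝ} (ht : 1 < t) (ht2 : t ≤ 2) (hr : 5 * t ^ (n + 2) ≤ (t - 1) * r)
    (hN : 2 ≤ ((n : ℝ) + 1) * (Real.log t) ^ 2) (hδ : 1 ≤ δ)
    (f : Fin r → MvPolynomial (Fin (n + 2)) K)
    (hf : ∀ i, (f i).IsHomogeneous δ) (hf0 : ∀ i, f i ≠ 0) :
    Gen f (fun F => ∀ k : ℕ, t * ((δ : ℝ) - 1) < (t - 1) * k →
      hilb F k = 0 ∧ fro (n + 2) (fun _ : Fin r => δ) k = 0) := by
  have ht1 : 0 < t - 1 := by linarith
  have hr2 : 2 * t ^ (n + 2) ≤ (t - 1) * r := by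
    have : 0 < t ^ (n + 2) := by positivity
    linarith
  refine (vanO hn K (fun _ => δ) ht ht2 hr2 f hf hf0).mono fun g hg k hk => ?_
  refine ⟨hg k ?_, fro_high hn ht ht2 hr hN hδ hk⟩
  obtain ⟨hdk, -⟩ := count hn ht ht2 hr2 hδ hk
  rw [Finset.sum_const, Finset.card_univ, Fintype.card_fin, nsmul_eq_mul, Nat.cast_sub (by omega)]
  push_cast
  have hr0 : (0 : ℝ) < r := by
    have h4 : 0 < t ^ (n + 2) := by positivity
    have h5 : 0 < (t - 1) * r := by linarith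
    exact (mul_pos_iff_of_pos_left ht1).1 h5
  have h6 : (k : ℝ) < t * (k + 1 - δ) := by linarith
  calc (r : ℝ) * k < r * (t * (k + 1 - δ)) := mul_lt_mul_of_pos_left h6 hr0
    _ = _ := by ring

/-- Asymptotic form. -/
theorem vanO_lim (τ ε : ℝ) (hτ : 1 < τ) (hτ2 : τ ≤ 2) (hε : 0 < ε) :
    ∃ n₀ : ℕ, ∀ n r δ : ℕ, n₀ ≤ n → 1 ≤ δ → τ ^ (n - 1) ≤ (r : ℝ) →
      ∀ (K : Type) [Field K] [CharZero K] (f : Fin r → MvPolynomial (Fin n) K),
        (∀ i, (f i).IsHomogeneous δ) → (∀ i, f i ≠ 0) →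
        Gen f (fun F => ∀ k : ℕ, (1 + ε) * (τ * δ) ≤ (τ - 1) * k →
          hilb F k = 0 ∧ fro n (fun _ : Fin r => δ) k = 0) := by
  obtain ⟨t, n₀, ht, ht2, htτ, hnr⟩ := near hτ hτ2 hε
  refine ⟨n₀ + 3, fun n r δ hn hδ hr K _ _ f hf hf0 => ?_⟩
  obtain ⟨m, rfl⟩ : ∃ m, n = m + 2 := ⟨n - 2, by omega⟩
  obtain ⟨h5, h6⟩ := hnr m r (by omega) hr
  refine (vanO_eq (by omega) K ht ht2 h5 h6 hδ f hf hf0).mono fun g hg k hk => hg k ?_
  have hδR : (1 : ℝ) ≤ δ := by exact_mod_cast hδ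
  have hτ1 : 0 < τ - 1 := by linarith
  have ht1 : 0 < t - 1 := by linarith
  refine lt_of_mul_lt_mul_left ?_ hτ1.le
  calc (τ - 1) * (t * ((δ : ℝ) - 1)) < (τ - 1) * (t * δ) := by
        have : 0 < t := by linarith
        exact mul_lt_mul_of_pos_left (mul_lt_mul_of_pos_left (by linarith) this) hτ1
    _ = t * (τ - 1) * δ := by ring
    _ ≤ (1 + ε) * τ * (t - 1) * δ := mul_le_mul_of_nonneg_right htτ (by linarith)
    _ = (t - 1) * ((1 + ε) * (τ * δ)) := by ring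
    _ ≤ (t - 1) * ((τ - 1) * k) := mul_le_mul_of_nonneg_left hk ht1.le
    _ = _ := by ring

end Pool.Agent.H669.FO
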