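import Pool.Agent.H669.FO.Many
import Pool.Agent.H669.FO.Perf
import Pool.Agent.H669.FO.Four
import Pool.Agent.H669.FO.Cmp
import Pool.Agent.H669.FO.Van

/-!
Arbitrary forms in general position: last steps.
-/

set_option autoImplicit false

namespace Pool.Agent.H669.FO

open MvPolynomial Finset Pool.Agent.TH206.Fro Pool.Agent.TH176.FB

/-- The matrices may be taken invertible. -/
theorem Gen.det {K : Type} [Field K] {n r : ℕ} {f : Fin r → MvPolynomial (Fin n) K}
    {T : (Fin r → MvPolynomial (Fin n) K) → Prop} (h : Gen f T) :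
    ∃ P : MvPolynomial (Fin r × Fin n × Fin n) K, P ≠ 0 ∧
      ∀ g : Fin r → Matrix (Fin n) (Fin n) K, eval (fun x => g x.1 x.2.1 x.2.2) P ≠ 0 →
        (∀ i, (g i).det ≠ 0) ∧ T (fun i => move (g i) (f i)) := by
  classical
  obtain ⟨Φ, hΦ0, hΦ⟩ := h
  let Δ : Fin r → MvPolynomial (Fin r × Fin n × Fin n) K := fun i =>
    (Matrix.of fun k l => (X (i, k, l) : MvPolynomial (Fin r × Fin n × Fin n) K)).det
  have hΔ : ∀ (x : Fin r × Fin n × Fin n → K) (i : Fin r),
      eval x (Δ i) = (Matrix.of fun k l => x (i, k, l)).det := by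
    intro x i
    simp only [Δ]
    rw [RingHom.map_det]
    apply congrArg Matrix.det
    ext k l
    simp
  have hΔ0 : ∀ i, Δ i ≠ 0 := by
    intro i h
    have h1 := hΔ (fun x => if x.2.1 = x.2.2 then 1 else 0) i
    rw [h, map_zero] at h1
    have h2 : (Matrix.of fun k l : Fin n => if k = l then (1 : K) else 0) = 1 := by
      ext k l
      rw [Matrix.of_apply, Matrix.one_apply]
    simp only at h1
    rw [h2, Matrix.det_one] at h1
    exact zero_ne_one h1
  refine ⟨Φ * ∏ i, Δ i, mul_ne_zero hΦ0 (Finset.prod_ne_zero_iff.2 fun i _ => hΔ0 i), ?_⟩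
  intro g hg
  rw [map_mul, map_prod] at hg
  have hg1 := left_ne_zero_of_mul hg
  have hg2 := Finset.prod_ne_zero_iff.1 (right_ne_zero_of_mul hg)
  refine ⟨fun i => ?_, hΦ g hg1⟩
  have h := hg2 i (Finset.mem_univ i)
  rw [hΔ] at h
  exact h

lemma fro_zero_mono (n : ℕ) {r : ℕ} (d : Fin r → ℕ) {D k : ℕ} (hDk : D ≤ k)
    (h : fro n d D = 0) : fro n d k = 0 := by
  unfold fro at h ⊢
  rw [if_neg]
  intro h'
  rw [if_pos fun j hj => h' j (hj.trans hDk)] at h
  have := h' D hDk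
  omega

lemma hilb_zero_mono {K : Type} [Field K] {n r : ℕ} (F : Fin r → MvPolynomial (Fin n) K)
    {D k : ℕ} (hDk : D ≤ k) (h : hilb F D = 0) : hilb F k = 0 := by
  rw [hilb_eq_card, sub_eq_zero] at h
  have h1 : (Mon n D).card = Module.finrank K (ik F D) := by exact_mod_cast h
  exact hilb_zero_of_top F k (ik_top_mono F D k hDk (ik_top_of_card F D h1.le))

/-- The comparison in all degrees. -/
theorem cmp_all (K L : Type) [Field K] [CharZero K] [Field L] [CharZero L] {n r : ℕ} (hn : 1 ≤ n)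
    (d : Fin r → ℕ) (hd : ∀ i, 1 ≤ d i) (p : Fin r → Fin n → L) (D : ℕ)
    (hp : ∀ k ≤ D, hilb (fun i => lf (p i) ^ d i) k = fro n d k)
    (f : Fin r → MvPolynomial (Fin n) K)
    (hf : ∀ i, (f i).IsHomogeneous (d i)) (hf0 : ∀ i, f i ≠ 0) :
    Gen f (fun F => ∀ k, (k ≤ D ∨ fro n d D = 0) → hilb F k = fro n d k) := by
  refine (cmp K L hn d hd p D hp f hf hf0).mono fun g hg k hk => ?_
  rcases le_or_gt k D with h | h
  · exact hg k h
  · rcases hk with hk | hk
    · omega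
    · rw [fro_zero_mono n d h.le hk]
      exact hilb_zero_mono _ h.le (by rw [hg D le_rfl, hk])

/-- Four variables. -/
theorem fourO_one (t δ : ℕ) (ht : 2 ≤ t) (hδ : 1 ≤ δ) : ∃ a : ℕ,
    ∀ (K : Type) [Field K] [CharZero K] (f : Fin (t ^ 3) → MvPolynomial (Fin 4) K),
    (∀ i, (f i).IsHomogeneous δ) → (∀ i, f i ≠ 0) →
    Gen f (fun F => ∀ k : ℕ, hilb F k ≠ fro 4 (fun _ : Fin (t ^ 3) => δ) k →
      k = a ∧ 4 ≤ t ∧ ¬ (t - 1) ∣ δ ∧ δ < (t - 1) * t.choose 3) := by
  classical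
  obtain ⟨a, ha⟩ : ∃ a : ℕ, ∀ k, Exc t δ k → k = a := by
    by_cases h : ∃ k, Exc t δ k
    · obtain ⟨a, m, c, hm, hct, hk, hk2, hmc⟩ := h
      refine ⟨a, ?_⟩
      rintro k ⟨m', c', hm', hct', hk', hk2', hmc'⟩
      obtain ⟨u, rfl⟩ : ∃ u, t = u + 1 := ⟨t - 1, by omega⟩
      have e1 : (u + 1) * m = u * m + m := by ring
      have e2 : (u + 1) * m' = u * m' + m' := by ring
      have h1 : u * m + c = u * m' + c' := by omega
      have h2 : c = c' := by
        have h3 : (u * m + c) % u = c := by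
          rw [Nat.mul_add_mod, Nat.mod_eq_of_lt (by omega)]
        have h4 : (u * m' + c') % u = c' := by
          rw [Nat.mul_add_mod, Nat.mod_eq_of_lt (by omega)]
        rw [← h3, h1, h4]
      have h5 : u * m = u * m' := by omega
      have h6 : m = m' := Nat.eq_of_mul_eq_mul_left (by omega) h5
      omega
    · exact ⟨0, fun k hk => absurd ⟨k, hk⟩ h⟩
  refine ⟨a, fun K _ _ f hf hf0 => (fourO K t δ ht hδ f hf hf0).mono fun g hg k hk => ?_⟩
  by_contra hcon
  refine hk (hg k fun hE => hcon ?_)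
  refine ⟨ha k hE, ?_, ?_, ?_⟩
  · obtain ⟨m, c, hm, hct, -, -, hmc⟩ := hE
    by_contra h
    have : c = 0 := by omega
    subst this
    simp at hmc
    omega
  · rintro ⟨q, hq⟩
    obtain ⟨m, c, hm, hct, hk1, hk2, hmc⟩ := hE
    obtain ⟨u, rfl⟩ : ∃ u, t = u + 1 := ⟨t - 1, by omega⟩
    simp only [Nat.add_sub_cancel] at hq
    have e1 : (u + 1) * m = u * m + m := by ring
    have h1 : u * q = u * m + (c + 1) := by omega
    have h3 : (u * m + (c + 1)) % u = c + 1 := by
      rw [Nat.mul_add_mod, Nat.mod_eq_of_lt (by omega)]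
    rw [← h1, Nat.mul_mod_right] at h3
    omega
  · by_contra h
    exact not_exc (not_lt.1 h) k hE

end Pool.Agent.H669.FO
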