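import Pool.Agent.H669.FO.Orbit

/-!
At least `3 ^ (n - 1)` arbitrary forms in general position.
-/

set_option autoImplicit false

namespace Pool.Agent.H669.FO

open MvPolynomial Finset Pool.Agent.TH206.Fro Pool.Agent.TH176.FB Pool.Agent.TH176.RK

/-- A property of the forms `f i ∘ g i` for general matrices `g i`. -/
def Gen {K : Type} [Field K] {n r : ℕ} (f : Fin r → MvPolynomial (Fin n) K)
    (T : (Fin r → MvPolynomial (Fin n) K) → Prop) : Prop :=
  ∃ Φ : MvPolynomial (Fin r × Fin n × Fin n) K, Φ ≠ 0 ∧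
    ∀ g : Fin r → Matrix (Fin n) (Fin n) K, eval (fun x => g x.1 x.2.1 x.2.2) Φ ≠ 0 →
      T (fun i => move (g i) (f i))

lemma Gen.of {K : Type} [Field K] {n r : ℕ} {f : Fin r → MvPolynomial (Fin n) K}
    {T : (Fin r → MvPolynomial (Fin n) K) → Prop} (h : ∀ F, T F) : Gen f T :=
  ⟨1, one_ne_zero, fun _ _ => h _⟩

lemma Gen.mono {K : Type} [Field K] {n r : ℕ} {f : Fin r → MvPolynomial (Fin n) K}
    {S T : (Fin r → MvPolynomial (Fin n) K) → Prop} (h : Gen f S)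
    (hST : ∀ g : Fin r → Matrix (Fin n) (Fin n) K,
      S (fun i => move (g i) (f i)) → T (fun i => move (g i) (f i))) : Gen f T := by
  obtain ⟨Φ, h0, h1⟩ := h
  exact ⟨Φ, h0, fun g hg => hST g (h1 g hg)⟩

lemma Gen.all {K : Type} [Field K] {n r : ℕ} {f : Fin r → MvPolynomial (Fin n) K} (B : ℕ)
    {T : ℕ → (Fin r → MvPolynomial (Fin n) K) → Prop} (h : ∀ k, Gen f (T k)) :
    Gen f (fun F => ∀ k < B, T k F) := by
  classical
  choose Φ h0 h1 using h
  refine ⟨∏ k ∈ Finset.range B, Φ k, Finset.prod_ne_zero_iff.2 fun k _ => h0 k,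
    fun g hg k hk => h1 k g ?_⟩
  rw [map_prod, Finset.prod_ne_zero_iff] at hg
  exact hg k (Finset.mem_range.2 hk)

lemma Gen.and {K : Type} [Field K] {n r : ℕ} {f : Fin r → MvPolynomial (Fin n) K}
    {S T : (Fin r → MvPolynomial (Fin n) K) → Prop} (h : Gen f S) (h' : Gen f T) :
    Gen f (fun F => S F ∧ T F) := by
  obtain ⟨Φ, h0, h1⟩ := h
  obtain ⟨Ψ, h2, h3⟩ := h'
  refine ⟨Φ * Ψ, mul_ne_zero h0 h2, fun g hg => ?_⟩
  rw [map_mul] at hg
  exact ⟨h1 g (left_ne_zero_of_mul hg), h3 g (right_ne_zero_of_mul hg)⟩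

lemma Gen.spec (K L : Type) [Field K] [CharZero K] [Field L] [CharZero L] {n r : ℕ} (k : ℕ)
    (d : Fin r → ℕ) (p : Fin r → Fin n → L)
    (f : Fin r → MvPolynomial (Fin n) K) (hf : ∀ i, (f i).IsHomogeneous (d i))
    (hf0 : ∀ i, f i ≠ 0) :
    Gen f (fun F => Module.finrank L (ik (fun i => lf (p i) ^ d i) k) ≤
      Module.finrank K (ik F k)) := specO K L n r k d p f hf hf0

/-- One degree, injectivity. -/
theorem indO (k : ℕ) (K : Type) [Field K] [CharZero K] (r : ℕ) (u : ℝ) (hu0 : 3 ≤ u)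
    (hu : u ^ (k + 2) = r) (d : Fin r → ℕ) (D W : ℕ) (hw : ∀ i, D + 1 - d i ≤ W)
    (h : u * (W + k + 1) + k < D) (f : Fin r → MvPolynomial (Fin (k + 3)) K)
    (hf : ∀ i, (f i).IsHomogeneous (d i)) (hf0 : ∀ i, f i ≠ 0) :
    Gen f (fun F => Fintype.card (Ro (k + 3) D d) ≤ Module.finrank K (ik F D)) := by
  classical
  obtain ⟨L, _, _, p, hp⟩ := fat_ind k r D W (fun i => D + 1 - d i) u hu0 hu hw h
  have h1 := emsalem_iarrobino D d p
  rw [dim_thm (k + 3) D L, card_Mon_choose (k + 2) D] at h1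
  have hRo := card_Ro_choose (k + 2) r D d (by omega)
  refine (Gen.spec K L D d p f hf hf0).mono fun g hg => le_trans ?_ hg
  rw [hRo]
  have e1 : ∀ i : Fin r, D + 1 - d i + (k + 2 - 1) = D + 1 - d i + (k + 1) := fun i => by omega
  simp only [e1]
  omega

/-- One degree, surjectivity. -/
theorem empO (k : ℕ) (K : Type) [Field K] [CharZero K] (r : ℕ) (u : ℝ) (hu0 : 3 ≤ u)
    (hu : u ^ (k + 2) = r) (d : Fin r → ℕ) (D : ℕ)
    (h : u ^ (k + 1) * D < ∑ i, ((D + 1 - d i : ℕ) : ℝ)) (f : Fin r → MvPolynomial (Fin (k + 3)) K)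
    (hf : ∀ i, (f i).IsHomogeneous (d i)) (hf0 : ∀ i, f i ≠ 0) :
    Gen f (fun F => (Mon (k + 3) D).card ≤ Module.finrank K (ik F D)) := by
  classical
  obtain ⟨L, _, _, p, hp⟩ := fat_empty k r D (fun i => D + 1 - d i) u hu0 hu h
  have h1 := emsalem_iarrobino D d p
  rw [dim_thm (k + 3) D L, hp, finrank_bot, add_zero] at h1
  exact (Gen.spec K L D d p f hf hf0).mono fun g hg => le_trans h1.ge hg

/-- Arbitrary degrees. -/
theorem allO (k : ℕ) (K : Type) [Field K] [CharZero K] (r : ℕ) (u : ℝ) (hu0 : 3 ≤ u)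
    (hu : u ^ (k + 2) = r) (d : Fin r → ℕ) (δ : ℕ) (hδ : 1 ≤ δ) (hd : ∀ i, δ ≤ d i)
    (htop : u ^ (k + 1) * (2 * δ - 1) < ∑ i, ((2 * δ - d i : ℕ) : ℝ))
    (f : Fin r → MvPolynomial (Fin (k + 3)) K)
    (hf : ∀ i, (f i).IsHomogeneous (d i)) (hf0 : ∀ i, f i ≠ 0) :
    Gen f (fun F => ∀ D : ℕ, (D < δ ∨ 2 * δ - 1 ≤ D ∨ u * (D + 1 - δ + k + 1) + k < D ∨
            u ^ (k + 1) * D < ∑ i, ((D + 1 - d i : ℕ) : ℝ)) →
          hilb F D = fro (k + 3) d D) := by
  classical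
  have hA : ∀ D : ℕ, Gen f (fun F => u * (((D + 1 - δ : ℕ) : ℝ) + k + 1) + k < D →
      Fintype.card (Ro (k + 3) D d) ≤ Module.finrank K (ik F D)) := by
    intro D
    by_cases h : u * (((D + 1 - δ : ℕ) : ℝ) + k + 1) + k < D
    · exact (indO k K r u hu0 hu d D (D + 1 - δ) (fun i => by have := hd i; omega) h f hf hf0).mono
        fun g hg _ => hg
    · exact Gen.of fun F h' => absurd h' h
  have hB : ∀ D : ℕ, Gen f (fun F => u ^ (k + 1) * D < ∑ i, ((D + 1 - d i : ℕ) : ℝ) →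
      (Mon (k + 3) D).card ≤ Module.finrank K (ik F D)) := by
    intro D
    by_cases h : u ^ (k + 1) * D < ∑ i, ((D + 1 - d i : ℕ) : ℝ)
    · exact (empO k K r u hu0 hu d D h f hf hf0).mono fun g hg _ => hg
    · exact Gen.of fun F h' => absurd h' h
  refine ((Gen.all (2 * δ) hA).and (Gen.all (2 * δ) hB)).mono fun g hfD => ?_
  have hf : ∀ i, (move (g i) (f i)).IsHomogeneous (d i) := fun i => move_hom _ (hf i)
  obtain ⟨hA', hB'⟩ := hfD
  -- the degree `2 δ - 1`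
  have htop' : homogeneousSubmodule (Fin (k + 3)) K (2 * δ - 1) ≤
      ik (fun i => move (g i) (f i)) (2 * δ - 1) := by
    refine ik_top_of_card _ _ (hB' (2 * δ - 1) (by omega) ?_)
    have e1 : ∀ i, 2 * δ - 1 + 1 - d i = 2 * δ - d i := fun i => by omega
    simp only [e1]
    rw [Nat.cast_sub (by omega)]
    push_cast
    exact htop
  intro D hD
  rcases lt_or_ge D δ with hk1 | hk1
  · refine hilb_eq K (k + 3) r D d (by omega) (fun i => by have := hd i; omega) _ hf ?_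
    have h1 : Fintype.card (Ro (k + 3) D d) = 0 := by
      rw [card_Ro]
      refine Finset.sum_eq_zero fun i _ => if_neg ?_
      have := hd i
      omega
    rw [h1]
    exact (min_le_left _ _).trans (Nat.zero_le _)
  rcases lt_or_ge D (2 * δ - 1) with hk2 | hk2
  swap
  · rw [fro_zero K (k + 3) r δ d (by omega) hd _ hf (2 * δ - 1) (by omega) htop' D hk2]
    exact hilb_zero_of_top _ D (ik_top_mono _ _ D hk2 htop')
  have hl : ∀ i, D < 2 * d i := fun i => by have := hd i; omega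
  rcases hD with hD | hD | hD | hD
  · omega
  · omega
  · refine hilb_eq K (k + 3) r D d (by omega) hl _ hf ((min_le_left _ _).trans
      (hA' D (by omega) ?_))
    rw [Nat.cast_sub (by omega)]
    push_cast
    exact hD
  · exact hilb_eq K (k + 3) r D d (by omega) hl _ hf ((min_le_right _ _).trans
      (hB' D (by omega) hD))

/-- At least `3 ^ (n - 1)` arbitrary forms in `n = j + 3` variables. -/
theorem manyO (j : ℕ) (K : Type) [Field K] [CharZero K] (r δ s : ℕ) (d : Fin r → ℕ) (u : ℝ)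
    (hu0 : 3 ≤ u) (hu : u ^ (j + 2) = r) (hδ : 1 ≤ δ) (hd : ∀ i, δ ≤ d i)
    (htop : (∀ i, 3 * d i ≤ 4 * δ) ∨
      u ^ (j + 1) * (2 * δ - 1) < ∑ i, ((2 * δ - d i : ℕ) : ℝ)) :
    ∃ k₀ : ℕ, ∀ f : Fin r → MvPolynomial (Fin (j + 3)) K, (∀ i, (f i).IsHomogeneous (d i)) →
      (∀ i, f i ≠ 0) →
      Gen f (fun F => ∀ k : ℕ, (u * (k + j + 2 - δ) + j < k ∨
            u ^ (j + 1) * k < ∑ i, ((k + 1 - d i : ℕ) : ℝ) ∨
            ((∀ i, d i ≤ δ + s) ∧
              (k < k₀ ∨ (k₀ : ℝ) + (j + 1 + s) + (2 * j + 1 + s) / (u - 1) < k))) →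
          hilb F k = fro (j + 3) d k) := by
  classical
  have hδR : (1 : ℝ) ≤ δ := by exact_mod_cast hδ
  have hup : 0 < u := by linarith
  have htop' : u ^ (j + 1) * (2 * δ - 1) < ∑ i, ((2 * δ - d i : ℕ) : ℝ) := by
    rcases htop with h | h
    · have h1 : ∀ i, (2 * (δ : ℝ)) / 3 ≤ ((2 * δ - d i : ℕ) : ℝ) := by
        intro i
        have h2 := h i
        have h3 : 2 * δ ≤ 3 * (2 * δ - d i) := by omega
        have h4 : ((2 * δ : ℕ) : ℝ) ≤ ((3 * (2 * δ - d i) : ℕ) : ℝ) := by exact_mod_cast h3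
        push_cast at h4
        linarith
      have h2 : (r : ℝ) * ((2 * (δ : ℝ)) / 3) ≤ ∑ i, ((2 * δ - d i : ℕ) : ℝ) := by
        calc (r : ℝ) * ((2 * (δ : ℝ)) / 3) = ∑ _i : Fin r, (2 * (δ : ℝ)) / 3 := by simp
          _ ≤ _ := Finset.sum_le_sum fun i _ => h1 i
      refine lt_of_lt_of_le ?_ h2
      rw [← hu]
      have h3 : u ^ (j + 2) * ((2 * (δ : ℝ)) / 3) = u ^ (j + 1) * (u * (2 * δ) / 3) := by ring
      rw [h3]
      refine mul_lt_mul_of_pos_left ?_ (by positivity)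
      have h4 : 3 * (2 * (δ : ℝ)) ≤ u * (2 * δ) := mul_le_mul_of_nonneg_right hu0 (by linarith)
      linarith
    · exact h
  -- the first exceptional degree
  have hex : ∃ k : ℕ, (k : ℝ) ≤ u * (k + j + 2 - δ) + j := by
    refine ⟨2 * δ, ?_⟩
    push_cast
    have hj : (0 : ℝ) ≤ j := Nat.cast_nonneg j
    have h1 : 3 * ((2 : ℝ) * δ + j + 2 - δ) ≤ u * (2 * δ + j + 2 - δ) :=
      mul_le_mul_of_nonneg_right hu0 (by linarith)
    linarith
  obtain ⟨k₀, hk₀, hmin⟩ : ∃ k₀ : ℕ, (k₀ : ℝ) ≤ u * (k₀ + j + 2 - δ) + j ∧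
      ∀ k < k₀, ¬ (k : ℝ) ≤ u * (k + j + 2 - δ) + j :=
    ⟨Nat.find hex, Nat.find_spec hex, fun k hk => Nat.find_min hex hk⟩
  refine ⟨k₀, fun f hf hf0 => (allO j K r u hu0 hu d δ hδ hd htop' f hf hf0).mono
    fun g hg k hk => ?_⟩
  have hmain := hg k
  have e1 : u * ((k : ℝ) + 1 - δ + j + 1) + j = u * (k + j + 2 - δ) + j := by ring
  rw [e1] at hmain
  by_cases hB : u ^ (j + 1) * k < ∑ i, ((k + 1 - d i : ℕ) : ℝ)
  · exact hmain (Or.inr (Or.inr (Or.inr hB)))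
  by_cases hA : u * (k + j + 2 - δ) + j < k
  · exact hmain (Or.inr (Or.inr (Or.inl hA)))
  push Not at hA
  -- the exceptional degrees
  have hexc : (∀ i, d i ≤ δ + s) → u * ((k : ℝ) + 1 - δ - s) ≤ k := by
    intro hs
    by_contra hcon
    push Not at hcon
    apply hB
    have h1 := Big.sum_lb (k := k) (δ := δ) (s := s) (d := d) (fun i => ⟨hd i, hs i⟩)
    have h2 : ((r * (k + 1 - (δ + s)) : ℕ) : ℝ) ≤ ((∑ i, (k + 1 - d i) : ℕ) : ℝ) := by
      exact_mod_cast h1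
    have h3 : (k : ℝ) + 1 - δ - s ≤ ((k + 1 - (δ + s) : ℕ) : ℝ) := by
      rcases le_total (δ + s) (k + 1) with h | h
      · rw [Nat.cast_sub h]
        push_cast
        linarith
      · have : ((k + 1 : ℕ) : ℝ) ≤ ((δ + s : ℕ) : ℝ) := by exact_mod_cast h
        push_cast at this
        have h0 : (0 : ℝ) ≤ ((k + 1 - (δ + s) : ℕ) : ℝ) := Nat.cast_nonneg _
        linarith
    have h4 : ((∑ i, (k + 1 - d i) : ℕ) : ℝ) = ∑ i, ((k + 1 - d i : ℕ) : ℝ) := by push_cast; rfl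
    rw [← h4]
    refine lt_of_lt_of_le ?_ h2
    push_cast
    rw [← hu]
    calc u ^ (j + 1) * (k : ℝ) < u ^ (j + 1) * (u * ((k : ℝ) + 1 - δ - s)) :=
          mul_lt_mul_of_pos_left hcon (by positivity)
      _ ≤ u ^ (j + 1) * (u * ((k + 1 - (δ + s) : ℕ) : ℝ)) :=
          mul_le_mul_of_nonneg_left (mul_le_mul_of_nonneg_left h3 hup.le) (by positivity)
      _ = _ := by ring
  rcases hk with hk | hk | ⟨hs, hk⟩
  · exact hmain (Or.inr (Or.inr (Or.inl hk)))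
  · exact absurd hk hB
  · exfalso
    have h1 := hexc hs
    rcases hk with h | h
    · exact hmin k h hA
    · have hu1 : 0 < u - 1 := by linarith
      have h2 : (u - 1) * ((k₀ : ℝ) + (j + 1 + s) + (2 * j + 1 + s) / (u - 1)) < (u - 1) * k :=
        mul_lt_mul_of_pos_left h hu1
      have h3 : (u - 1) * ((2 * (j : ℝ) + 1 + s) / (u - 1)) = 2 * j + 1 + s := by
        field_simp
      have h4 : (u - 1) * ((k₀ : ℝ) + (j + 1 + s) + (2 * j + 1 + s) / (u - 1)) =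
          (u - 1) * (k₀ + (j + 1 + s)) + (2 * j + 1 + s) := by rw [mul_add, h3]
      rw [h4] at h2
      nlinarith

end Pool.Agent.H669.FO
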