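import Pool.Graph.R_seed8.TH176.FB.Final2
import Pool.Graph.R_seed8.TH176.RK.Fro2

/-!
Semicontinuity for arbitrary forms, each moved by its own matrix, with a special family of powers of
linear forms over another field.
-/

set_option autoImplicit false

namespace Pool.Agent.H669.FO

open MvPolynomial Finset Pool.Agent.TH206.Fro Pool.Agent.TH176.FB

/-- The form `f ∘ a`: `f` with `x_k` replaced by `∑ l, a k l * x_l`. -/
noncomputable def move {K : Type} [Field K] {n : ℕ} (a : Matrix (Fin n) (Fin n) K)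
    (f : MvPolynomial (Fin n) K) : MvPolynomial (Fin n) K :=
  aeval (fun k => ∑ l, C (a k l) * X l) f

lemma subst_hom {K : Type} [Field K] {n : ℕ} (L : Fin n → MvPolynomial (Fin n) K)
    (hL : ∀ k, (L k).IsHomogeneous 1) {f : MvPolynomial (Fin n) K} {δ : ℕ}
    (hf : f.IsHomogeneous δ) : (aeval L f).IsHomogeneous δ := by
  rw [aeval_def, eval₂_eq']
  refine IsHomogeneous.sum _ _ _ fun m hm => ?_
  have h1 : (∏ i, (L i) ^ m i : MvPolynomial (Fin n) K).IsHomogeneous (∑ i, m i) := by
    refine IsHomogeneous.prod _ _ _ fun i _ => ?_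
    have := (hL i).pow (m i)
    rwa [one_mul] at this
  have h2 : ∑ i, m i = δ := by
    have h3 : m.degree = δ := by
      rw [Finsupp.degree_eq_weight_one (R := ℕ)]
      exact hf (mem_support_iff.1 hm)
    rw [← Finsupp.degree_eq_sum, h3]
  rw [h2] at h1
  have h4 := (isHomogeneous_C (Fin n) (coeff m f)).mul h1
  rw [zero_add] at h4
  exact h4

lemma move_hom {K : Type} [Field K] {n : ℕ} (a : Matrix (Fin n) (Fin n) K)
    {f : MvPolynomial (Fin n) K} {δ : ℕ} (hf : f.IsHomogeneous δ) :
    (move a f).IsHomogeneous δ :=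
  subst_hom _ (fun k => lf_hom (a k)) hf

/-- A matrix of rank one turns a form into a multiple of a power of a linear form. -/
lemma move_rank_one {K : Type} [Field K] {n : ℕ} (v p : Fin n → K) {f : MvPolynomial (Fin n) K}
    {δ : ℕ} (hf : f.IsHomogeneous δ) :
    move (Matrix.of fun k l => v k * p l) f = C (eval v f) * lf p ^ δ := by
  have h0 : ∀ k, ∑ l, C ((Matrix.of fun k l => v k * p l) k l) * X l =
      (C (v k) * lf p : MvPolynomial (Fin n) K) := by
    intro k
    unfold lf
    rw [Finset.mul_sum]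
    refine Finset.sum_congr rfl fun l _ => ?_
    rw [Matrix.of_apply, C_mul, mul_assoc]
  unfold move
  simp only [h0]
  rw [aeval_def, eval₂_eq', eval_eq', map_sum, Finset.sum_mul]
  refine Finset.sum_congr rfl fun m hm => ?_
  have h2 : ∑ i, m i = δ := by
    have h3 : m.degree = δ := by
      rw [Finsupp.degree_eq_weight_one (R := ℕ)]
      exact hf (mem_support_iff.1 hm)
    rw [← Finsupp.degree_eq_sum, h3]
  simp only [mul_pow]
  rw [Finset.prod_mul_distrib, Finset.prod_pow_eq_pow_sum, h2, algebraMap_eq, ← mul_assoc,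
    map_mul, map_prod]
  simp only [map_pow]

/-- The minors of a family of forms commute with ring homomorphisms. -/
lemma det_map {A B : Type} [CommRing A] [CommRing B] (φ : A →+* B) {n r k : ℕ} {d : Fin r → ℕ}
    (F : Fin r → MvPolynomial (Fin n) A) {ρ : ℕ} (f : Fin ρ → Ro n k d) (g : Fin ρ → Dg n k) :
    φ ((Mx d k (fun s : Io n d => (F s.1).coeff s.2.1)).submatrix f g).det =
      ((Mx d k (fun s : Io n d => (MvPolynomial.map φ (F s.1)).coeff s.2.1)).submatrix f g).det := by
  rw [RingHom.map_det]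
  congr 1
  ext i j
  simp only [RingHom.mapMatrix_apply, Matrix.map_apply, Matrix.submatrix_apply]
  unfold Mx
  split_ifs with h
  · exact (MvPolynomial.coeff_map φ _ _).symm
  · exact map_zero _

/-- Points over one field of characteristic zero can be replaced by points over another one. -/
theorem points (K L : Type) [Field K] [CharZero K] [Field L] [CharZero L] (n r k : ℕ)
    (d : Fin r → ℕ) (p : Fin r → Fin n → L) :
    ∃ q : Fin r → Fin n → K, Module.finrank L (ik (fun i => lf (p i) ^ d i) k) ≤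
      Module.finrank K (ik (fun i => lf (q i) ^ d i) k) := by
  classical
  have hom : ∀ (F : Type) [Field F] (p : Fin r → Fin n → F) (i : Fin r),
      (lf (p i) ^ d i).IsHomogeneous (d i) := by
    intro F _ p i
    have h := (lf_hom (p i)).pow (d i)
    rwa [one_mul] at h
  obtain ⟨f, g, hfg⟩ := exists_minor
    (Mx d k (fun s : Io n d => (lf (p s.1) ^ d s.1).coeff s.2.1)) _ le_rfl
  let A := MvPolynomial (Fin r × Fin n) ℤ
  let F : Fin r → MvPolynomial (Fin n) A := fun i =>
    (∑ j, C (X (i, j) : MvPolynomial (Fin r × Fin n) ℤ) * X j) ^ d i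
  have hF : ∀ (M : Type) [Field M] (q : Fin r → Fin n → M) (i : Fin r),
      MvPolynomial.map (eval₂Hom (Int.castRingHom M) (fun x : Fin r × Fin n => q x.1 x.2)) (F i) =
        lf (q i) ^ d i := by
    intro M _ q i
    simp only [F]
    rw [map_pow, map_sum]
    congr 1
    unfold lf
    refine Finset.sum_congr rfl fun j _ => ?_
    rw [map_mul, map_C, map_X]
    congr 2
    rw [MvPolynomial.coe_eval₂Hom, eval₂_X]
  have hdet : ∀ (M : Type) [Field M] (q : Fin r → Fin n → M),
      (eval₂Hom (Int.castRingHom M) (fun x : Fin r × Fin n => q x.1 x.2))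
        ((Mx d k (fun s : Io n d => (F s.1).coeff s.2.1)).submatrix f g).det =
      ((Mx d k (fun s : Io n d => (lf (q s.1) ^ d s.1).coeff s.2.1)).submatrix f g).det := by
    intro M _ q
    rw [det_map]
    simp only [hF]
  obtain ⟨Q, hQ⟩ : ∃ Q : MvPolynomial (Fin r × Fin n) ℤ,
    Q = ((Mx d k (fun s : Io n d => (F s.1).coeff s.2.1)).submatrix f g).det := ⟨_, rfl⟩
  rw [← hQ] at hdet
  have hne : Q ≠ 0 := by
    intro h
    apply hfg
    rw [← hdet L p, h, map_zero]
  have hneK : MvPolynomial.map (Int.castRingHom K) Q ≠ 0 := fun h => hne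
    (MvPolynomial.map_injective _ (RingHom.injective_int (Int.castRingHom K))
      (by rw [h, map_zero]))
  obtain ⟨q, hq⟩ : ∃ q : Fin r × Fin n → K, eval q (MvPolynomial.map (Int.castRingHom K) Q) ≠ 0 := by
    by_contra h
    push Not at h
    exact hneK (MvPolynomial.funext fun x => by rw [h x, map_zero])
  refine ⟨fun i j => q (i, j), ?_⟩
  unfold ik
  rw [hilb_thm n k r d L _ (hom L p), hilb_thm n k r d K _ (hom K _)]
  refine rank_ge_of_minor _ _ f g ?_
  rw [eval_map] at hq
  intro h0
  apply hq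
  have h1 := hdet K (fun i j => q (i, j))
  rw [h0] at h1
  exact h1

/-- Semicontinuity along the orbits. -/
theorem orbit (K : Type) [Field K] [CharZero K] (n r k : ℕ) (d : Fin r → ℕ)
    (f : Fin r → MvPolynomial (Fin n) K) (hf : ∀ i, (f i).IsHomogeneous (d i))
    (hf0 : ∀ i, f i ≠ 0) (q : Fin r → Fin n → K) :
    ∃ Φ : MvPolynomial (Fin r × Fin n × Fin n) K, Φ ≠ 0 ∧
      ∀ g : Fin r → Matrix (Fin n) (Fin n) K, eval (fun x => g x.1 x.2.1 x.2.2) Φ ≠ 0 →
        Module.finrank K (ik (fun i => lf (q i) ^ d i) k) ≤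
          Module.finrank K (ik (fun i => move (g i) (f i)) k) := by
  classical
  have h1 : ∀ i, ∃ v : Fin n → K, eval v (f i) ≠ 0 := by
    intro i
    by_contra h
    push Not at h
    exact hf0 i (MvPolynomial.funext fun x => by rw [h x, map_zero])
  choose v hv using h1
  let g0 : Fin r → Matrix (Fin n) (Fin n) K := fun i => Matrix.of fun k l => v i k * q i l
  have hg0 : ∀ i, move (g0 i) (f i) = C (eval (v i) (f i)) * lf (q i) ^ d i := fun i =>
    move_rank_one (v i) (q i) (hf i)
  have hspan : ik (fun i => lf (q i) ^ d i) k ≤ ik (fun i => move (g0 i) (f i)) k := by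
    refine inf_le_inf_right _ ?_
    intro x hx
    have hx' : x ∈ Ideal.span (Set.range fun i => lf (q i) ^ d i) := hx
    show x ∈ Ideal.span (Set.range fun i => move (g0 i) (f i))
    refine (Ideal.span_le.2 ?_) hx'
    rintro _ ⟨i, rfl⟩
    have h2 : lf (q i) ^ d i = C (eval (v i) (f i))⁻¹ * move (g0 i) (f i) := by
      rw [hg0, ← mul_assoc, ← C_mul, inv_mul_cancel₀ (hv i), C_1, one_mul]
    show lf (q i) ^ d i ∈ Ideal.span _
    rw [h2]
    exact Ideal.mul_mem_left _ _ (Ideal.subset_span ⟨i, rfl⟩)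
  have hfd : FiniteDimensional K (ik (fun i => move (g0 i) (f i)) k) :=
    Submodule.finiteDimensional_of_le (inf_le_right : _ ≤ homogeneousSubmodule _ K k)
  have hle := Submodule.finrank_mono hspan
  have hmh : ∀ (g : Fin r → Matrix (Fin n) (Fin n) K) (i : Fin r),
      (move (g i) (f i)).IsHomogeneous (d i) := fun g i => move_hom _ (hf i)
  obtain ⟨a, b, hab⟩ := exists_minor
    (Mx d k (fun s : Io n d => (move (g0 s.1) (f s.1)).coeff s.2.1)) _ le_rfl
  let F : Fin r → MvPolynomial (Fin n) (MvPolynomial (Fin r × Fin n × Fin n) K) := fun i =>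
    eval₂Hom ((C : MvPolynomial (Fin r × Fin n × Fin n) K →+* _).comp C)
      (fun k => ∑ l, C (X (i, k, l) : MvPolynomial (Fin r × Fin n × Fin n) K) * X l) (f i)
  have hF : ∀ (g : Fin r → Matrix (Fin n) (Fin n) K) (i : Fin r),
      MvPolynomial.map (eval (fun x : Fin r × Fin n × Fin n => g x.1 x.2.1 x.2.2)) (F i) =
        move (g i) (f i) := by
    intro g i
    simp only [F]
    unfold move
    rw [aeval_def, MvPolynomial.coe_eval₂Hom, MvPolynomial.hom_eval₂]
    congr 1
    · ext x
      simp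
    · funext k
      rw [map_sum]
      refine Finset.sum_congr rfl fun l _ => ?_
      rw [map_mul, map_C, map_X, eval_X]
  have hdet : ∀ (g : Fin r → Matrix (Fin n) (Fin n) K),
      eval (fun x : Fin r × Fin n × Fin n => g x.1 x.2.1 x.2.2)
        ((Mx d k (fun s : Io n d => (F s.1).coeff s.2.1)).submatrix a b).det =
      ((Mx d k (fun s : Io n d => (move (g s.1) (f s.1)).coeff s.2.1)).submatrix a b).det := by
    intro g
    rw [det_map]
    simp only [hF]
  refine ⟨((Mx d k (fun s : Io n d => (F s.1).coeff s.2.1)).submatrix a b).det, fun h => hab ?_,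
    fun g hg => hle.trans ?_⟩
  · rw [← hdet g0, h, map_zero]
  · rw [hdet] at hg
    unfold ik
    rw [hilb_thm n k r d K _ (hmh g0), hilb_thm n k r d K _ (hmh g)]
    exact rank_ge_of_minor _ _ a b hg

/-- Semicontinuity, with powers of linear forms over another field. -/
theorem specO (K L : Type) [Field K] [CharZero K] [Field L] [CharZero L] (n r k : ℕ)
    (d : Fin r → ℕ) (p : Fin r → Fin n → L)
    (f : Fin r → MvPolynomial (Fin n) K) (hf : ∀ i, (f i).IsHomogeneous (d i))
    (hf0 : ∀ i, f i ≠ 0) :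
    ∃ Φ : MvPolynomial (Fin r × Fin n × Fin n) K, Φ ≠ 0 ∧
      ∀ g : Fin r → Matrix (Fin n) (Fin n) K, eval (fun x => g x.1 x.2.1 x.2.2) Φ ≠ 0 →
        Module.finrank L (ik (fun i => lf (p i) ^ d i) k) ≤
          Module.finrank K (ik (fun i => move (g i) (f i)) k) := by
  obtain ⟨q, hq⟩ := points K L n r k d p
  obtain ⟨Φ, h0, hΦ⟩ := orbit K n r k d f hf hf0 q
  exact ⟨Φ, h0, fun g hg => hq.trans (hΦ g hg)⟩

lemma lin_eq {K : Type} [Field K] {N : ℕ} (p : Fin N → K) :
    lin p = lf (Fin.cons 1 p : Fin (N + 1) → K) := by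
  unfold lin lf
  rw [Fin.sum_univ_succ]
  simp

end Pool.Agent.H669.FO
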